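import Pool.Agent.X14.EL.Walsh

/-! Part EL_WAL (helper14, backup). -/

open MeasureTheory Set
open scoped ENNReal

namespace Pool.Agent.X14.EL

open Pool.Agent.X171.EL

/-- weight -/
noncomputable def W (A : Set ℕ) (S : Finset ℕ) : ℝ :=
  (∑ i ∈ S, A.indicator (fun _ => (1 : ℝ)) i) / S.card

lemma W_nonneg (A : Set ℕ) (S : Finset ℕ) : 0 ≤ W A S := by
  unfold W
  refine div_nonneg (Finset.sum_nonneg fun i _ => ?_) (by positivity)
  exact indicator_nonneg (fun _ _ => zero_le_one) i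

lemma W_le (A : Set ℕ) (S : Finset ℕ) : W A S ≤ 1 := by
  unfold W
  refine div_le_one_of_le₀ ?_ (by positivity)
  calc ∑ i ∈ S, A.indicator (fun _ => (1 : ℝ)) i ≤ ∑ i ∈ S, (1 : ℝ) := by
        refine Finset.sum_le_sum fun i _ => ?_
        exact indicator_le_self' (fun _ _ => zero_le_one) i
    _ = S.card := by simp

lemma W_add (A B : Set ℕ) (h : Disjoint A B) (S : Finset ℕ) : W (A ∪ B) S = W A S + W B S := by
  unfold W
  rw [← add_div, ← Finset.sum_add_distrib]
  congr 1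
  refine Finset.sum_congr rfl fun i _ => ?_
  rw [indicator_union_of_disjoint h]

lemma W_univ (S : Finset ℕ) : W univ S = if S = ∅ then 0 else 1 := by
  unfold W
  split_ifs with h
  · simp [h]
  · have : (S.card : ℝ) ≠ 0 := by
      simp [h]
    simp [this]

/-- coefficient -/
noncomputable def cf (S : Finset ℕ) (v : X2) : ℝ := inner ℝ (e S) v

/-- the quadratic form -/
noncomputable def q (A : Set ℕ) (v : X2) : ℝ := ∑' S, W A S * cf S v ^ 2

lemma hs (v : X2) : HasSum (fun S => cf S v ^ 2) (‖v‖ ^ 2) := by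
  have h := hb.hasSum_inner_mul_inner v v
  rw [real_inner_self_eq_norm_sq] at h
  have h2 : (fun S => cf S v ^ 2) = fun S => inner ℝ v (hb S) * inner ℝ (hb S) v := by
    funext S
    rw [hb_apply, real_inner_comm (e S) v]
    unfold cf
    ring
  rw [h2]
  exact h

lemma sm (v : X2) : Summable (fun S => cf S v ^ 2) := (hs v).summable

lemma smW (A : Set ℕ) (v : X2) : Summable (fun S => W A S * cf S v ^ 2) :=
  Summable.of_nonneg_of_le (fun S => mul_nonneg (W_nonneg A S) (sq_nonneg _))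
    (fun S => by nlinarith [W_le A S, W_nonneg A S, sq_nonneg (cf S v)]) (sm v)

lemma q_nonneg (A : Set ℕ) (v : X2) : 0 ≤ q A v :=
  tsum_nonneg fun S => mul_nonneg (W_nonneg A S) (sq_nonneg _)

lemma q_add (A B : Set ℕ) (h : Disjoint A B) (v : X2) : q (A ∪ B) v = q A v + q B v := by
  unfold q
  rw [← (smW A v).tsum_add (smW B v)]
  refine tsum_congr fun S => ?_
  rw [W_add A B h]; ring

lemma bes (F : Finset (Finset ℕ)) (v : X2) : ∑ S ∈ F, cf S v ^ 2 ≤ ‖v‖ ^ 2 :=
  sum_le_hasSum F (fun S _ => sq_nonneg _) (hs v)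

lemma q_lip1 (A : Set ℕ) (v w : X2) : q A v - q A w ≤ ‖v - w‖ * (‖v‖ + ‖w‖) := by
  unfold q
  rw [← (smW A v).tsum_sub (smW A w)]
  refine ((smW A v).sub (smW A w)).tsum_le_of_sum_le fun F => ?_
  have h1 : ∀ S ∈ F, W A S * cf S v ^ 2 - W A S * cf S w ^ 2 ≤ |cf S (v - w)| * |cf S (v + w)| := by
    intro S _
    have h2 : cf S (v - w) = cf S v - cf S w := by unfold cf; rw [inner_sub_right]
    have h3 : cf S (v + w) = cf S v + cf S w := by unfold cf; rw [inner_add_right]
    rw [h2, h3, ← abs_mul]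
    have h4 : (cf S v - cf S w) * (cf S v + cf S w) = cf S v ^ 2 - cf S w ^ 2 := by ring
    rw [h4, ← mul_sub]
    calc W A S * (cf S v ^ 2 - cf S w ^ 2) ≤ W A S * |cf S v ^ 2 - cf S w ^ 2| :=
          mul_le_mul_of_nonneg_left (le_abs_self _) (W_nonneg A S)
      _ ≤ 1 * |cf S v ^ 2 - cf S w ^ 2| := mul_le_mul_of_nonneg_right (W_le A S) (abs_nonneg _)
      _ = _ := one_mul _
  refine (Finset.sum_le_sum h1).trans ?_
  have h5 := Finset.sum_mul_sq_le_sq_mul_sq F (fun S => |cf S (v - w)|) (fun S => |cf S (v + w)|)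
  simp only [sq_abs] at h5
  have h6 : (∑ S ∈ F, |cf S (v - w)| * |cf S (v + w)|) ^ 2 ≤ (‖v - w‖ * ‖v + w‖) ^ 2 := by
    refine h5.trans ?_
    rw [mul_pow]
    exact mul_le_mul (bes F _) (bes F _) (Finset.sum_nonneg fun _ _ => sq_nonneg _) (sq_nonneg _)
  have h7 := abs_le_of_sq_le_sq' h6 (by positivity)
  refine h7.2.trans ?_
  exact mul_le_mul_of_nonneg_left (norm_add_le _ _) (norm_nonneg _)

lemma cf_empty (v : X2) : cf ∅ v = ∫ ω, v ω ∂Pr := by
  unfold cf
  rw [inner_e]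
  simp [chi]

lemma q_univ (v : X2) : q univ v = ‖v‖ ^ 2 - (∫ ω, v ω ∂Pr) ^ 2 := by
  unfold q
  have h1 : HasSum (fun S : Finset ℕ => if S = ∅ then cf S v ^ 2 else 0) (cf ∅ v ^ 2) := by
    have := hasSum_single (f := fun S : Finset ℕ => if S = ∅ then cf S v ^ 2 else 0) ∅
      (fun S hS => by rw [if_neg hS])
    simpa using this
  have h2 := (hs v).sub h1
  rw [cf_empty] at h2
  rw [← h2.tsum_eq]
  refine tsum_congr fun S => ?_
  rw [W_univ]
  split_ifs with h <;> simp

lemma cf_pm (π : Equiv.Perm ℕ) (h : MeasurePreserving (pm π) Pr Pr) (S : Finset ℕ) (v : X2) :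
    cf (S.map π.toEmbedding) (Lp.compMeasurePreserving (pm π) h v) = cf S v := by
  unfold cf
  rw [inner_e, inner_e]
  have h1 : ∀ ω, chi (S.map π.toEmbedding) ω = chi S (pm π ω) := by
    intro ω
    unfold chi pm
    rw [Finset.prod_map]
    rfl
  have h2 : ∫ ω, chi (S.map π.toEmbedding) ω * (Lp.compMeasurePreserving (pm π) h v) ω ∂Pr
      = ∫ ω, chi S (pm π ω) * v (pm π ω) ∂Pr := by
    refine integral_congr_ae ?_
    filter_upwards [Lp.coeFn_compMeasurePreserving v h] with ω hω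
    rw [hω, h1]; rfl
  rw [h2]
  have h3 := integral_map (μ := Pr) (φ := pm π) h.measurable.aemeasurable
    (f := fun ω => chi S ω * v ω) (by
      rw [h.map_eq]
      exact (meas_chi S).aestronglyMeasurable.mul (Lp.aestronglyMeasurable v))
  rw [h.map_eq] at h3
  exact h3.symm

lemma W_pm (π : Equiv.Perm ℕ) (A : Set ℕ) (S : Finset ℕ) :
    W A (S.map π.toEmbedding) = W (π ⁻¹' A) S := by
  unfold W
  rw [Finset.sum_map, Finset.card_map]
  rfl

lemma q_pm (π : Equiv.Perm ℕ) (h : MeasurePreserving (pm π) Pr Pr) (A : Set ℕ) (v : X2) :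
    q A (Lp.compMeasurePreserving (pm π) h v) = q (π ⁻¹' A) v := by
  unfold q
  rw [← (Equiv.finsetCongr π).tsum_eq]
  refine tsum_congr fun S => ?_
  have : (Equiv.finsetCongr π) S = S.map π.toEmbedding := rfl
  rw [this, cf_pm, W_pm]

theorem t_WAL : S_WAL := by
  refine ⟨q, q_nonneg, fun A B h v => q_add A B h v, fun A v w => ?_, q_univ, q_pm⟩
  rw [abs_le]
  constructor
  · have := q_lip1 A w v
    rw [norm_sub_rev, add_comm] at this
    linarith
  · exact q_lip1 A v w

end Pool.Agent.X14.EL
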