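import Pool.Agent.X171.EL.Stm

/-! Walsh functions are orthonormal and complete (helper14). -/

open MeasureTheory Set
open scoped ENNReal

namespace Pool.Agent.X14.EL

open Pool.Agent.X171.EL

/-- sign of a coin -/
noncomputable def eps (b : Bool) : ℝ := if b then -1 else 1

/-- Walsh function -/
noncomputable def chi (S : Finset ℕ) (ω : Om) : ℝ := ∏ i ∈ S, eps (ω i)

lemma eps_sq (b : Bool) : eps b * eps b = 1 := by cases b <;> simp [eps]

lemma eps_abs (b : Bool) : |eps b| = 1 := by cases b <;> simp [eps]

lemma meas_chi (S : Finset ℕ) : Measurable (chi S) := by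
  unfold chi
  refine Finset.measurable_prod _ fun i _ => ?_
  exact (measurable_of_countable eps).comp (measurable_pi_apply i)

lemma abs_chi (S : Finset ℕ) (ω : Om) : |chi S ω| = 1 := by
  unfold chi
  rw [Finset.abs_prod]
  exact Finset.prod_eq_one fun i _ => eps_abs _

lemma memLp_chi (S : Finset ℕ) : MemLp (chi S) 2 Pr :=
  MemLp.of_bound (meas_chi S).aestronglyMeasurable 1
    (Filter.Eventually.of_forall fun ω => by rw [Real.norm_eq_abs, abs_chi])

lemma int_chi (S : Finset ℕ) : Integrable (chi S) Pr :=
  (memLp_chi S).integrable (by norm_num)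

lemma chi_mul (S T : Finset ℕ) (ω : Om) : chi S ω * chi T ω = chi (symmDiff S T) ω := by
  unfold chi
  have h1 : S = (S \ T) ∪ (S ∩ T) := by ext; simp; tauto
  have h2 : T = (T \ S) ∪ (S ∩ T) := by ext; simp; tauto
  have d1 : Disjoint (S \ T) (S ∩ T) := by
    rw [Finset.disjoint_left]; intro a; simp; tauto
  have d2 : Disjoint (T \ S) (S ∩ T) := by
    rw [Finset.disjoint_left]; intro a; simp; tauto
  have d3 : Disjoint (S \ T) (T \ S) := by
    rw [Finset.disjoint_left]; intro a; simp; tauto
  have e1 : ∏ i ∈ S, eps (ω i) = (∏ i ∈ S \ T, eps (ω i)) * ∏ i ∈ S ∩ T, eps (ω i) := by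
    rw [← Finset.prod_union d1, ← h1]
  have e2 : ∏ i ∈ T, eps (ω i) = (∏ i ∈ T \ S, eps (ω i)) * ∏ i ∈ S ∩ T, eps (ω i) := by
    rw [← Finset.prod_union d2, ← h2]
  have e3 : ∏ i ∈ symmDiff S T, eps (ω i) = (∏ i ∈ S \ T, eps (ω i)) * ∏ i ∈ T \ S, eps (ω i) := by
    rw [← Finset.prod_union d3]; rfl
  have e4 : (∏ i ∈ S ∩ T, eps (ω i)) * ∏ i ∈ S ∩ T, eps (ω i) = 1 := by
    rw [← Finset.prod_mul_distrib]
    exact Finset.prod_eq_one fun i _ => eps_sq _
  rw [e1, e2, e3]
  calc _ = (∏ i ∈ S \ T, eps (ω i)) * (∏ i ∈ T \ S, eps (ω i)) *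
      ((∏ i ∈ S ∩ T, eps (ω i)) * ∏ i ∈ S ∩ T, eps (ω i)) := by ring
    _ = _ := by rw [e4, mul_one]

lemma coin_not : coin.map (fun b => !b) = coin := by
  refine Measure.ext_of_singleton fun b => ?_
  rw [Measure.map_apply (measurable_of_countable _) (measurableSet_singleton _)]
  have : (fun b : Bool => !b) ⁻¹' {b} = {!b} := by
    ext c; cases b <;> cases c <;> simp
  rw [this]
  unfold coin
  rw [PMF.toMeasure_apply_singleton _ _ (measurableSet_singleton _),
    PMF.toMeasure_apply_singleton _ _ (measurableSet_singleton _)]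
  simp [PMF.uniformOfFintype_apply]

/-- flip one coin -/
def flip (i₀ : ℕ) (ω : Om) : Om := fun i => if i = i₀ then !(ω i) else ω i

lemma mp_flip (i₀ : ℕ) : MeasurePreserving (flip i₀) Pr Pr := by
  refine ⟨?_, ?_⟩
  · refine measurable_pi_lambda _ fun i => ?_
    unfold flip
    by_cases h : i = i₀
    · simp only [h, if_true]
      exact (measurable_of_countable (fun b : Bool => !b)).comp (measurable_pi_apply i₀)
    · simp only [h, if_false]
      exact measurable_pi_apply i
  · unfold Pr
    have h := Measure.infinitePi_map_pi (X := fun _ : ℕ => Bool) (Y := fun _ : ℕ => Bool)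
      (fun _ : ℕ => coin)
      (f := fun i b => if i = i₀ then !b else b) (fun i => measurable_of_countable _)
    have e : (fun (x : ℕ → Bool) i => if i = i₀ then !(x i) else x i) = flip i₀ := rfl
    rw [e] at h
    rw [h]
    congr 1
    funext i
    by_cases hi : i = i₀
    · simp only [hi, if_true]
      exact coin_not
    · simp only [hi, if_false]
      exact Measure.map_id

lemma chi_flip (S : Finset ℕ) (i₀ : ℕ) (h : i₀ ∈ S) (ω : Om) : chi S (flip i₀ ω) = - chi S ω := by
  unfold chi
  rw [← Finset.mul_prod_erase _ _ h, ← Finset.mul_prod_erase _ (fun i => eps (ω i)) h]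
  have h1 : eps (flip i₀ ω i₀) = - eps (ω i₀) := by
    unfold flip; simp only [if_true]; cases ω i₀ <;> simp [eps]
  have h2 : ∏ x ∈ S.erase i₀, eps (flip i₀ ω x) = ∏ x ∈ S.erase i₀, eps (ω x) := by
    refine Finset.prod_congr rfl fun x hx => ?_
    unfold flip
    rw [if_neg (Finset.ne_of_mem_erase hx)]
  rw [h1, h2]; ring

lemma integral_chi (S : Finset ℕ) (hS : S.Nonempty) : ∫ ω, chi S ω ∂Pr = 0 := by
  obtain ⟨i₀, h⟩ := hS
  have h1 : ∫ ω, chi S (flip i₀ ω) ∂Pr = ∫ ω, chi S ω ∂Pr := by
    have h2 := integral_map (μ := Pr) (φ := flip i₀) (mp_flip i₀).measurable.aemeasurable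
      (f := chi S) (meas_chi S).aestronglyMeasurable
    rw [(mp_flip i₀).map_eq] at h2
    exact h2.symm
  simp only [chi_flip S i₀ h] at h1
  rw [integral_neg] at h1
  linarith

/-- the Walsh functions in `L_2` -/
noncomputable def e (S : Finset ℕ) : X2 := (memLp_chi S).toLp (chi S)

lemma inner_e (S : Finset ℕ) (v : X2) : inner ℝ (e S) v = ∫ ω, chi S ω * v ω ∂Pr := by
  rw [MeasureTheory.L2.inner_def]
  refine integral_congr_ae ?_
  filter_upwards [(memLp_chi S).coeFn_toLp] with ω hω
  unfold e
  rw [hω]
  simp [mul_comm]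

lemma e_on : Orthonormal ℝ e := by
  rw [orthonormal_iff_ite]
  intro S T
  rw [inner_e]
  have h1 : ∫ ω, chi S ω * (e T) ω ∂Pr = ∫ ω, chi (symmDiff S T) ω ∂Pr := by
    refine integral_congr_ae ?_
    filter_upwards [(memLp_chi T).coeFn_toLp] with ω hω
    unfold e
    rw [hω, chi_mul]
  rw [h1]
  split_ifs with h
  · subst h
    rw [symmDiff_self]
    simp [chi]
  · exact integral_chi _ (by
      rw [Finset.nonempty_iff_ne_empty]
      intro h2
      exact h (symmDiff_eq_bot.mp h2))

lemma complete (v : X2) (hv : ∀ S, ∫ ω, chi S ω * v ω ∂Pr = 0) : v = 0 := by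
  have hint : Integrable v Pr := (Lp.memLp v).integrable (by norm_num)
  have hchi : ∀ S, Integrable (fun ω => chi S ω * v ω) Pr := by
    intro S
    refine hint.bdd_mul (c := 1) (meas_chi S).aestronglyMeasurable ?_
    exact Filter.Eventually.of_forall fun ω => by rw [Real.norm_eq_abs, abs_chi]
  have key : ∀ A : Set Om, MeasurableSet A → ∫ ω in A, v ω ∂Pr = 0 := by
    intro A hA
    induction A, hA using MeasurableSpace.induction_on_inter
      (generateFrom_squareCylinders (α := fun _ : ℕ => Bool)).symm
      (isPiSystem_squareCylinders (fun _ => MeasurableSpace.isPiSystem_measurableSet) (by simp)) with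
    | empty => simp
    | basic t ht =>
      obtain ⟨s, u, -, rfl⟩ := ht
      classical
      have hm : MeasurableSet ((s : Set ℕ).pi u) :=
        MeasurableSet.pi s.countable_toSet fun i _ => trivial
      rw [← integral_indicator hm]
      have h1 : ∀ ω : Om, ((s : Set ℕ).pi u).indicator (fun ω => v ω) ω =
          ∑ t ∈ s.powerset, ((∏ i ∈ t, (((if true ∈ u i then (1 : ℝ) else 0) * (-1) + (if false ∈ u i then (1 : ℝ) else 0)) / 2)) *
            ∏ i ∈ s \ t, (((if true ∈ u i then (1 : ℝ) else 0) + (if false ∈ u i then (1 : ℝ) else 0)) / 2)) *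
            (chi t ω * v ω) := by
        intro ω
        have h2 : ∀ i, (if ω i ∈ u i then (1 : ℝ) else 0) =
            (((if true ∈ u i then (1 : ℝ) else 0) * (-1) + (if false ∈ u i then (1 : ℝ) else 0)) / 2) * eps (ω i) +
            (((if true ∈ u i then (1 : ℝ) else 0) + (if false ∈ u i then (1 : ℝ) else 0)) / 2) := by
          intro i
          unfold eps
          cases ω i
          · simp only [Bool.false_eq_true, if_false]; ring
          · simp only [if_true]; ring
        have h3 : (∏ i ∈ s, (if ω i ∈ u i then (1 : ℝ) else 0)) * v ω =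
            ((s : Set ℕ).pi u).indicator (fun ω => v ω) ω := by
          by_cases h : ω ∈ (s : Set ℕ).pi u
          · rw [indicator_of_mem h, Finset.prod_eq_one, one_mul]
            intro i hi
            rw [if_pos (h i hi)]
          · rw [indicator_of_notMem h]
            have : ∃ i ∈ s, ω i ∉ u i := by
              by_contra hc
              push Not at hc
              exact h fun i hi => hc i hi
            obtain ⟨i, hi, hi2⟩ := this
            rw [Finset.prod_eq_zero hi (if_neg hi2), zero_mul]
        rw [← h3, Finset.prod_congr rfl (fun i _ => h2 i), Finset.prod_add, Finset.sum_mul]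
        refine Finset.sum_congr rfl fun t _ => ?_
        rw [Finset.prod_mul_distrib]
        unfold chi
        ring
      simp only [h1]
      rw [integral_finsetSum _ (fun t _ => (hchi t).const_mul _)]
      refine Finset.sum_eq_zero fun t _ => ?_
      rw [integral_const_mul, hv, mul_zero]
    | compl t ht ih =>
      have h1 := integral_add_compl ht hint
      have h2 := hv ∅
      simp only [chi, Finset.prod_empty, one_mul] at h2
      linarith
    | iUnion f hd hm ih =>
      rw [integral_iUnion hm hd hint.integrableOn]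
      simp [ih]
  have h := Integrable.ae_eq_zero_of_forall_setIntegral_eq_zero hint (fun A hA _ => key A hA)
  exact (Lp.eq_zero_iff_ae_eq_zero).mpr h

lemma e_bot : (Submodule.span ℝ (Set.range e))ᗮ = ⊥ := by
  rw [Submodule.eq_bot_iff]
  intro v hv
  refine complete v fun S => ?_
  rw [← inner_e]
  exact (Submodule.mem_orthogonal _ _).mp hv (e S) (Submodule.subset_span ⟨S, rfl⟩)

/-- Hilbert basis -/
noncomputable def hb : HilbertBasis (Finset ℕ) ℝ X2 := HilbertBasis.mkOfOrthogonalEqBot e_on e_bot

lemma hb_apply (S : Finset ℕ) : hb S = e S := by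
  unfold hb; rw [HilbertBasis.coe_mkOfOrthogonalEqBot]

end Pool.Agent.X14.EL
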